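import Pool.Agent.Helper88.UV.TmcDefs

/-!
# PROJECT UR2 (MP_c578c8_lc), packet TMC: the bounds
-/

set_option autoImplicit false

namespace Pool.Agent.Helper92.UV

open Pool.Agent.Helper53.UV Pool.Agent.Helper88.UV

theorem pow5 (l : ℕ) : (l + 1) ^ 5 ≤ 512 * 2 ^ l := by
  rcases lt_or_ge l 7 with h | h
  · interval_cases l <;> norm_num
  · induction l, h using Nat.le_induction with
    | base => norm_num
    | succ l hl ih =>
      have h1 : (l + 1 + 1) ^ 5 ≤ 2 * (l + 1) ^ 5 := by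
        obtain ⟨a, rfl⟩ : ∃ a, l = a + 7 := ⟨l - 7, by omega⟩
        have h2 : 2 * (a + 7 + 1) ^ 5 = (a + 7 + 1 + 1) ^ 5 + (a ^ 5 + 35 * a ^ 4 + 470 * a ^ 3 +
            2950 * a ^ 2 + 8155 * a + 6487) := by ring
        omega
      calc (l + 1 + 1) ^ 5 ≤ 2 * (l + 1) ^ 5 := h1
        _ ≤ 2 * (512 * 2 ^ l) := Nat.mul_le_mul_left _ ih
        _ = 512 * 2 ^ (l + 1) := by ring

theorem pair_le {a b B : ℕ} (ha : a + 1 ≤ B) (hb : b + 1 ≤ B) : Nat.pair a b + 1 ≤ B ^ 2 := by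
  have h1 := Nat.pair_lt_max_add_one_sq a b
  have h2 : max a b + 1 ≤ B := by
    rcases max_choice a b with h | h <;> rw [h] <;> assumption
  have h3 : (max a b + 1) ^ 2 ≤ B ^ 2 := Nat.pow_le_pow_left h2 2
  omega

theorem bnd : GoalBnd := by
  intro hAVG N K₀ hB C
  -- constants
  obtain ⟨a, ha⟩ : ∃ a : ℕ, (K₀ : ℝ) + 2 * |C| + 10 ≤ 2 ^ a := by
    obtain ⟨a, ha⟩ := exists_nat_ge ((K₀ : ℝ) + 2 * |C| + 10)
    refine ⟨a, ha.trans ?_⟩
    exact_mod_cast (Nat.lt_two_pow_self (n := a)).le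
  obtain ⟨q, hq⟩ : ∃ q : ℝ, q = 8 * ((a : ℝ) + 3) + 1 := ⟨_, rfl⟩
  obtain ⟨h, hh⟩ : ∃ h : ℕ, K₀ < 2 ^ h := ⟨K₀, Nat.lt_two_pow_self⟩
  have hq1 : 1 ≤ q := by
    rw [hq]
    have : (0 : ℝ) ≤ a := Nat.cast_nonneg a
    linarith
  obtain ⟨C₂, hC₂⟩ : ∃ C₂ : ℝ, C₂ = |C| + 512 ^ 2 := ⟨_, rfl⟩
  have hC₂0 : 0 ≤ C₂ := by rw [hC₂]; positivity
  refine ⟨4 * C₂ * q ^ 5 + ((h : ℝ) + 1) * q ^ 4 * (1 + 512) + 2 * q * q ^ 4 * 512, ?_⟩
  intro w y t hacc ht
  obtain ⟨n, hn⟩ : ∃ n, n = w.length := ⟨_, rfl⟩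
  rw [← hn] at ht
  obtain ⟨l, hl⟩ : ∃ l, l = Nat.log 2 n := ⟨_, rfl⟩
  rw [← hl] at ht
  have hnl : n + 1 ≤ 2 ^ (l + 1) := by
    rw [hl]
    exact Nat.lt_pow_succ_log_self (by norm_num) n
  have hln : 2 ^ l ≤ n + 1 := by
    rcases Nat.eq_zero_or_pos n with h0 | h0
    · rw [hl, h0]
      simp
    · rw [hl]
      exact (Nat.pow_log_le_self 2 h0.ne').trans (Nat.le_succ n)
  obtain ⟨L, hL⟩ : ∃ L : ℝ, L = (l : ℝ) + 1 := ⟨_, rfl⟩
  obtain ⟨X, hX⟩ : ∃ X : ℝ, X = (n : ℝ) + 1 := ⟨_, rfl⟩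
  have hL1 : 1 ≤ L := by
    rw [hL]
    have : (0 : ℝ) ≤ l := Nat.cast_nonneg l
    linarith
  have hX1 : 1 ≤ X := by
    rw [hX]
    have : (0 : ℝ) ≤ n := Nat.cast_nonneg n
    linarith
  have hL5 : L ^ 5 ≤ 512 * X := by
    have h1 : (l + 1) ^ 5 ≤ 512 * (n + 1) := (pow5 l).trans (Nat.mul_le_mul_left _ hln)
    rw [hL, hX]
    exact_mod_cast h1
  have hL4 : L ^ 4 ≤ 512 * X := by
    refine le_trans ?_ hL5
    calc L ^ 4 = L ^ 4 * 1 := (mul_one _).symm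
      _ ≤ L ^ 4 * L := mul_le_mul_of_nonneg_left hL1 (by positivity)
      _ = L ^ 5 := by ring
  have hL9 : L ^ 9 ≤ 512 ^ 2 * X ^ 3 := by
    calc L ^ 9 = L ^ 9 * 1 := (mul_one _).symm
      _ ≤ L ^ 9 * L := mul_le_mul_of_nonneg_left hL1 (by positivity)
      _ = (L ^ 5) ^ 2 := by ring
      _ ≤ (512 * X) ^ 2 := pow_le_pow_left₀ (by positivity) hL5 2
      _ = 512 ^ 2 * X ^ 2 * 1 := by ring
      _ ≤ 512 ^ 2 * X ^ 2 * X := mul_le_mul_of_nonneg_left hX1 (by positivity)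
      _ = 512 ^ 2 * X ^ 3 := by ring
  rw [← hX, ← hL] at ht
  have hLpos : 0 < L ^ 9 := by positivity
  have ht' : (t : ℝ) * L ^ 9 ≤ |C| * X ^ 3 := by
    rw [le_div_iff₀ hLpos] at ht
    exact ht.trans (mul_le_mul_of_nonneg_right (le_abs_self C) (by positivity))
  have hr : ((t + 1 : ℕ) : ℝ) * L ^ 9 ≤ C₂ * X ^ 3 := by
    push_cast
    rw [hC₂, add_mul, add_mul]
    linarith
  have htX : (t : ℝ) ≤ |C| * X ^ 3 := by
    refine le_trans ?_ ht'
    calc (t : ℝ) = t * 1 := (mul_one _).symm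
      _ ≤ t * L ^ 9 := mul_le_mul_of_nonneg_left (one_le_pow₀ hL1) (Nat.cast_nonneg t)
  -- the parameters
  obtain ⟨D, hD⟩ : ∃ D, D = n / (l + 1) ^ 4 + 1 := ⟨_, rfl⟩
  have hD0 : 0 < D := by rw [hD]; exact Nat.succ_pos _
  have hDn : D ≤ n + 1 := by
    rw [hD]
    exact Nat.succ_le_succ (Nat.div_le_self _ _)
  have hDX : X ≤ D * L ^ 4 := by
    have h1 : n + 1 ≤ D * (l + 1) ^ 4 := by
      have h2 := Nat.lt_div_mul_add (a := n) (b := (l + 1) ^ 4) (by positivity)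
      rw [hD, add_mul, one_mul]
      exact h2
    rw [hX, hL]
    exact_mod_cast h1
  have hDL : (D : ℝ) * L ^ 4 ≤ X + L ^ 4 := by
    have h1 : D * (l + 1) ^ 4 ≤ (n + 1) + (l + 1) ^ 4 := by
      rw [hD, add_mul, one_mul]
      have h2 := Nat.div_mul_le_self n ((l + 1) ^ 4)
      omega
    rw [hX, hL]
    exact_mod_cast h1
  obtain ⟨o, ho, hco⟩ := hAVG (fun t => N.cel (N.conf w y t).1) D (t + 1) hD0
    (fun t _ => hB.cel w y t)
  obtain ⟨o', ho', hco'⟩ := hAVG (fun t => N.adr (N.conf w y t).1) D (t + 1) hD0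
    (fun t _ => hB.adr w y t)
  -- the size
  obtain ⟨B, hBd⟩ : ∃ B, B = 2 ^ (a + 3 * (l + 1)) := ⟨_, rfl⟩
  have hBB : K₀ + 2 * (t + 1) + n + 2 * D + 1 ≤ B := by
    have h1 : ((K₀ + 2 * (t + 1) + n + 2 * D + 1 : ℕ) : ℝ) ≤ (B : ℝ) := by
      have h2 : (D : ℝ) ≤ X := by
        rw [hX]
        exact_mod_cast hDn
      have h3 : X ≤ X ^ 3 := by
        calc X = X * 1 := (mul_one _).symm
          _ ≤ X * X ^ 2 := mul_le_mul_of_nonneg_left (one_le_pow₀ hX1) (by positivity)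
          _ = X ^ 3 := by ring
      have h4 : (1 : ℝ) ≤ X ^ 3 := one_le_pow₀ hX1
      have h5 : (n : ℝ) ≤ X := by rw [hX]; linarith
      have h6 : (K₀ : ℝ) ≤ K₀ * X ^ 3 := by
        calc (K₀ : ℝ) = K₀ * 1 := (mul_one _).symm
          _ ≤ K₀ * X ^ 3 := mul_le_mul_of_nonneg_left h4 (Nat.cast_nonneg _)
      have h7 : X ^ 3 ≤ (2 ^ (l + 1)) ^ 3 := by
        refine pow_le_pow_left₀ (by positivity) ?_ 3
        rw [hX]
        exact_mod_cast hnl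
      calc ((K₀ + 2 * (t + 1) + n + 2 * D + 1 : ℕ) : ℝ)
          = K₀ + 2 * (t + 1) + n + 2 * D + 1 := by push_cast; ring
        _ ≤ (K₀ + 2 * |C| + 10) * X ^ 3 := by nlinarith
        _ ≤ 2 ^ a * (2 ^ (l + 1)) ^ 3 :=
          mul_le_mul ha h7 (by positivity) (by positivity)
        _ = (B : ℝ) := by
          rw [hBd]
          push_cast
          rw [← pow_mul, ← pow_add]
          congr 1
          ring
    exact_mod_cast h1
  obtain ⟨s, hs⟩ : ∃ s, s = 8 * (a + 3 * (l + 1)) := ⟨_, rfl⟩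
  have hB8 : B ^ 8 = 2 ^ s := by
    rw [hBd, hs, ← pow_mul, mul_comm]
  have hB1 : 1 ≤ B := by
    rw [hBd]
    exact Nat.one_le_two_pow
  have hBs : ∀ z, z + 1 ≤ B → z < 2 ^ s := by
    intro z hz
    rw [← hB8]
    have h1 : B ^ 1 ≤ B ^ 8 := Nat.pow_le_pow_right hB1 (by norm_num)
    rw [pow_one] at h1
    omega
  have hsq : (s : ℝ) + 1 ≤ q * L := by
    rw [hs, hq, hL]
    push_cast
    have h1 : (0 : ℝ) ≤ a := Nat.cast_nonneg a
    have h2 : (0 : ℝ) ≤ l := Nat.cast_nonneg l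
    nlinarith [mul_nonneg h1 h2]
  have hsL : (s : ℝ) + L ≤ q * L := by
    rw [hs, hq, hL]
    push_cast
    have h1 : (0 : ℝ) ≤ a := Nat.cast_nonneg a
    have h2 : (0 : ℝ) ≤ l := Nat.cast_nonneg l
    nlinarith [mul_nonneg h1 h2]
  have hsL4 : ((s : ℝ) + L) ^ 4 ≤ q ^ 4 * L ^ 4 := by
    rw [← mul_pow]
    exact pow_le_pow_left₀ (by positivity) hsL 4
  -- the changes
  have hchg : (N.chg w y D o o' (t + 1) : ℝ) * X ≤ 4 * C₂ * X ^ 3 / L ^ 5 := by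
    have h1 : N.chg w y D o o' (t + 1) ≤
        {u : ℕ | u < t + 1 ∧ (N.cel (N.conf w y (u + 1)).1 + o) / D ≠
          (N.cel (N.conf w y u).1 + o) / D}.ncard +
        {u : ℕ | u < t + 1 ∧ (N.adr (N.conf w y (u + 1)).1 + o') / D ≠
          (N.adr (N.conf w y u).1 + o') / D}.ncard := by
      refine le_trans ?_ (Set.ncard_union_le _ _)
      unfold CM.chg
      refine Set.ncard_le_ncard ?_ ?_
      · rintro u ⟨hu, h2 | h2⟩
        · exact Or.inl ⟨hu, h2⟩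
        · exact Or.inr ⟨hu, h2⟩
      · exact (Set.finite_lt_nat (t + 1)).subset (by
          rintro u (⟨hu, -⟩ | ⟨hu, -⟩) <;> exact hu)
    have h2 : N.chg w y D o o' (t + 1) * D ≤ 4 * (t + 1) := by
      calc N.chg w y D o o' (t + 1) * D ≤ _ := Nat.mul_le_mul_right D h1
        _ ≤ 4 * (t + 1) := by
          rw [add_mul]
          have h3 := Nat.add_le_add hco hco'
          refine h3.trans (le_of_eq ?_)
          ring
    have h3 : (N.chg w y D o o' (t + 1) : ℝ) * D ≤ 4 * ((t + 1 : ℕ) : ℝ) := by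
      exact_mod_cast h2
    rw [le_div_iff₀ (by positivity)]
    have h4 : (0 : ℝ) ≤ N.chg w y D o o' (t + 1) := Nat.cast_nonneg _
    calc (N.chg w y D o o' (t + 1) : ℝ) * X * L ^ 5
        ≤ (N.chg w y D o o' (t + 1) : ℝ) * (D * L ^ 4) * L ^ 5 := by
          refine mul_le_mul_of_nonneg_right ?_ (by positivity)
          exact mul_le_mul_of_nonneg_left hDX h4
      _ = (N.chg w y D o o' (t + 1) : ℝ) * D * L ^ 9 := by ring
      _ ≤ 4 * ((t + 1 : ℕ) : ℝ) * L ^ 9 := mul_le_mul_of_nonneg_right h3 hLpos.le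
      _ = 4 * (((t + 1 : ℕ) : ℝ) * L ^ 9) := by ring
      _ ≤ 4 * (C₂ * X ^ 3) := by linarith
      _ = 4 * C₂ * X ^ 3 := by ring
  have hchg' : (N.chg w y D o o' (t + 1) : ℝ) * L ^ 5 ≤ 4 * C₂ * X ^ 2 := by
    have hXpos : 0 < X := by linarith
    rw [le_div_iff₀ (by positivity)] at hchg
    have h5 : (N.chg w y D o o' (t + 1) : ℝ) * L ^ 5 * X ≤ 4 * C₂ * X ^ 2 * X := by
      calc _ = (N.chg w y D o o' (t + 1) : ℝ) * X * L ^ 5 := by ring
        _ ≤ 4 * C₂ * X ^ 3 := hchg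
        _ = 4 * C₂ * X ^ 2 * X := by ring
    exact le_of_mul_le_mul_right h5 hXpos
  refine ⟨D, o, o', t + 1, s, s, h, s, hD0, hacc, hBs _ (by omega), ?_, hBs _ (by omega), ?_,
    ?_, ?_⟩
  · rw [← hn]
    exact hBs _ (by omega)
  · intro u hu
    obtain ⟨j, p, z, h1, h2, h3, h4, h5, h6⟩ := hB.st w y u
    rw [← hn] at h1
    refine ⟨?_, ?_, ?_, ?_, ?_⟩
    · rw [h1]
      have h7 : Nat.pair z n + 1 ≤ B ^ 2 := pair_le (by omega) (by omega)
      have hB2 : B ≤ B ^ 2 := by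
        calc B = B ^ 1 := (pow_one _).symm
          _ ≤ B ^ 2 := Nat.pow_le_pow_right hB1 (by norm_num)
      have h8 : Nat.pair p (Nat.pair z n) + 1 ≤ (B ^ 2) ^ 2 := pair_le (by omega) h7
      have hB4 : B ≤ (B ^ 2) ^ 2 := by
        calc B = B ^ 1 := (pow_one _).symm
          _ ≤ B ^ 4 := Nat.pow_le_pow_right hB1 (by norm_num)
          _ = (B ^ 2) ^ 2 := by ring
      have h9 : Nat.pair j (Nat.pair p (Nat.pair z n)) + 1 ≤ ((B ^ 2) ^ 2) ^ 2 :=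
        pair_le (by omega) h8
      have h10 : ((B ^ 2) ^ 2) ^ 2 = 2 ^ s := by
        rw [← hB8]
        ring
      omega
    · rw [h5]
      exact hBs _ (by omega)
    · rw [h6]
      exact hBs _ (by omega)
    · intro v hv
      rw [h6] at hv
      have h7 := hB.ad w.length v
      rw [← hn] at h7 ⊢
      refine hBs _ ?_
      rcases max_choice v n with h8 | h8 <;> rw [h8] at h7 <;> omega
    · intro z'
      exact lt_of_le_of_lt (hB.con w y u z') hh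
  · rw [← hn, ← hl, ← hL, ← hX]
    calc (N.chg w y D o o' (t + 1) : ℝ) * ((s : ℝ) + 1) * ((s : ℝ) + L) ^ 4
        ≤ (N.chg w y D o o' (t + 1) : ℝ) * (q * L) * (q ^ 4 * L ^ 4) := by
          refine mul_le_mul (mul_le_mul_of_nonneg_left hsq (Nat.cast_nonneg _)) hsL4
            (by positivity) (by positivity)
      _ = q ^ 5 * ((N.chg w y D o o' (t + 1) : ℝ) * L ^ 5) := by ring
      _ ≤ q ^ 5 * (4 * C₂ * X ^ 2) := mul_le_mul_of_nonneg_left hchg' (by positivity)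
      _ = (4 * C₂ * q ^ 5) * X ^ 2 := by ring
      _ ≤ _ := by
        refine mul_le_mul_of_nonneg_right ?_ (by positivity)
        have h1 : 0 ≤ ((h : ℝ) + 1) * q ^ 4 * (1 + 512) := by positivity
        have h2 : 0 ≤ 2 * q * q ^ 4 * 512 := by positivity
        linarith
  · rw [← hn, ← hl, ← hL, ← hX]
    have h1 : ((D : ℝ) * ((h : ℝ) + 1) + s + s) * ((s : ℝ) + L) ^ 4 ≤
        ((D : ℝ) * ((h : ℝ) + 1) + 2 * (q * L)) * (q ^ 4 * L ^ 4) := by
      refine mul_le_mul ?_ hsL4 (by positivity) (by positivity)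
      linarith
    refine h1.trans ?_
    calc ((D : ℝ) * ((h : ℝ) + 1) + 2 * (q * L)) * (q ^ 4 * L ^ 4)
        = ((h : ℝ) + 1) * q ^ 4 * (D * L ^ 4) + 2 * q * q ^ 4 * L ^ 5 := by ring
      _ ≤ ((h : ℝ) + 1) * q ^ 4 * ((1 + 512) * X) + 2 * q * q ^ 4 * (512 * X) := by
        refine add_le_add ?_ ?_
        · refine mul_le_mul_of_nonneg_left ?_ (by positivity)
          linarith
        · exact mul_le_mul_of_nonneg_left hL5 (by positivity)
      _ = (((h : ℝ) + 1) * q ^ 4 * (1 + 512) + 2 * q * q ^ 4 * 512) * X := by ring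
      _ ≤ _ := by
        refine mul_le_mul_of_nonneg_right ?_ (by positivity)
        have h2 : 0 ≤ 4 * C₂ * q ^ 5 := by positivity
        linarith

end Pool.Agent.Helper92.UV
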